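import Pool.Agent.Helper58.FL2.Flag2
import Pool.Agent.Helper91.FL2.Path

/-!
# FL2, module V1 HMADJ, first part: mapping presheaves and suspensions
-/

open CategoryTheory MonoidalCategory Opposite

set_option autoImplicit false

namespace Helper53FL2

open FL

variable {C : Type} [SmallCategory C]

/-! ### Jumps of maps to `[1]` -/

/-- The morphism `θ ⟶ [1](θ_t)` with underlying map `f`, where `f` jumps at `t`. -/
def jm {θ : Wr C} (f : Fin (θ.len + 1) →o Fin (1 + 1)) (t : Fin θ.len) (h : Jump f t 0) :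
    θ ⟶ seg (θ.obj t) :=
  ({ f := f
     g := fun i (j : Fin 1) h' => eqToHom (congrArg θ.obj (h'.unique
      (by rw [Subsingleton.elim j 0]; exact h))) } : Wr.Hom θ (seg (θ.obj t)))

lemma jm_f {θ : Wr C} (f : Fin (θ.len + 1) →o Fin (1 + 1)) (t : Fin θ.len) (h : Jump f t 0) :
    Wr.Hom.f (jm f t h) = f := rfl

lemma jm_g {θ : Wr C} (f : Fin (θ.len + 1) →o Fin (1 + 1)) (t : Fin θ.len) (h : Jump f t 0)
    (h' : Jump (Wr.Hom.f (jm f t h)) t 0) : Wr.Hom.g (jm f t h) t 0 h' = 𝟙 _ := rfl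

lemma const_of_no_jump {n : ℕ} (f : Fin (n + 1) →o Fin (1 + 1))
    (h : ¬ ∃ t, Jump f t 0) (i : Fin (n + 1)) : f i = f 0 := by
  by_contra hc
  apply h
  have h0 : f 0 ≤ f i := f.monotone (Fin.zero_le i)
  have h1 : f 0 < f i := lt_of_le_of_ne h0 fun e => hc e.symm
  obtain ⟨t, _, _, ht⟩ := exists_jump f (0 : Fin 1) (p := 0) (q := i)
    (by rw [Fin.le_def]; have := (f i).2; rw [Fin.lt_def] at h1; simp; omega)
    (by rw [Fin.le_def]; rw [Fin.lt_def] at h1; simp; omega)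
  exact ⟨t, ht⟩

lemma not_jump_const {n : ℕ} {f : Fin (n + 1) →o Fin (1 + 1)} {i : Fin (1 + 1)}
    (h : ∀ p, f p = i) (t : Fin n) : ¬ Jump f t 0 := by
  intro hj
  have h1 := hj.1
  have h2 := hj.2
  rw [h] at h1 h2
  exact absurd (h2.trans h1) (by decide)

/-- A simplex of the suspension with constant underlying map. -/
lemma eq_vsEnd {B : SP C} {θ : Wr C} {k : SimplexCategoryᵒᵖ} (u : VS (fun _ : Fin 1 => B) θ k)
    (i : Fin 2) (h : ∀ p, u.f p = i) : u = vsEnd B i θ k := by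
  refine VS.ext' ?_ fun p (j : Fin 1) hj _ => ?_
  · ext p
    exact congrArg Fin.val (h p)
  · exfalso
    obtain rfl : j = 0 := Subsingleton.elim _ _
    exact not_jump_const h p hj

/-- A simplex of the suspension with a jump. -/
lemma eq_map_jm {B : SP C} {θ : Wr C} {k : SimplexCategoryᵒᵖ} (u : VS (fun _ : Fin 1 => B) θ k)
    (t : Fin θ.len) (h : Jump u.f t 0) : VS.mapθ (jm u.f t h) (vsOf B (u.g t 0 h)) = u := by
  refine VS.ext' rfl fun p (j : Fin 1) hj hj' => ?_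
  obtain rfl : j = 0 := Subsingleton.elim _ _
  obtain rfl : p = t := hj'.unique h
  refine (VS.mapθ_g (jm u.f p h) (vsOf B (u.g p 0 h)) h (jump_id.mpr rfl)).trans ?_
  exact sp_id B (u.g p 0 h)

lemma mapθ_vsOf_vtx {B : SP C} {c : C} {k : SimplexCategoryᵒᵖ} (b : (B.obj (op c)).obj k)
    (i : Fin 2) : VS.mapθ (vtx (seg c) i) (vsOf B b) = vsEnd B i Wr.pt k :=
  VS.ext' rfl fun (p : Fin 0) => p.elim0

lemma mapθ_vsEnd {B : SP C} {θ θ' : Wr C} (φ : θ' ⟶ θ) (i : Fin 2) (k : SimplexCategoryᵒᵖ) :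
    VS.mapθ φ (vsEnd B i θ k) = vsEnd B i θ' k :=
  eq_vsEnd _ i fun _ => rfl

section

variable {X : SP (Wr C)} {x y : Vt X}

/-- The `i`-th of the two vertices. -/
def pk (x y : Vt X) (i : Fin 2) : Vt X := if i = 0 then x else y

lemma Hm_ends {c : Cᵒᵖ} {k : SimplexCategoryᵒᵖ} (z : ((Hm X x y).obj c).obj k) (i : Fin 2) :
    (X.map (vtx (seg c.unop) i).op).app k (Hm.val z) = cst (X.obj (op Wr.pt)) (pk x y i) k := by
  have h := z.2
  have h1 : (X.map (vtx (seg c.unop) 0).op).app k (Hm.val z) = cst (X.obj (op Wr.pt)) x k :=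
    congrArg Prod.fst h
  have h2 : (X.map (vtx (seg c.unop) 1).op).app k (Hm.val z) = cst (X.obj (op Wr.pt)) y k :=
    congrArg Prod.snd h
  fin_cases i
  · exact h1
  · exact h2

/-- Naturality of `Hm.val` in the simplex. -/
lemma Hm_val_map {c c' : Cᵒᵖ} (f : c ⟶ c') {k : SimplexCategoryᵒᵖ}
    (z : ((Hm X x y).obj c).obj k) :
    Hm.val (((Hm X x y).map f).app k z) = (X.map (segMap f.unop).op).app k (Hm.val z) := rfl

lemma Hm_val_mapk {c : Cᵒᵖ} {k l : SimplexCategoryᵒᵖ} (α : k ⟶ l)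
    (z : ((Hm X x y).obj c).obj k) :
    Hm.val (((Hm X x y).obj c).map α z) = (X.obj (op (seg c.unop))).map α (Hm.val z) := rfl

open Classical in
/-- The value of the map `V[1](B) × Δ[m] ⟶ X` attached to a map `B × Δ[m] ⟶ X(x, y)`. -/
noncomputable def susApp {B : SP C} {m : SimplexCategory} (ψ : MpS B (Hm X x y) m)
    (θ : (Wr C)ᵒᵖ) (l : SimplexCategoryᵒᵖ) (s : l.unop ⟶ m)
    (u : VS (fun _ : Fin 1 => B) θ.unop l) : (X.obj θ).obj l :=
  if h : ∃ t, Jump u.f t 0 then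
    (X.map (jm u.f h.choose h.choose_spec).op).app l
      (Hm.val (ψ.app (op (θ.unop.obj h.choose)) l s (u.g h.choose 0 h.choose_spec)))
  else (X.map (Wr.toPt θ.unop).op).app l (cst (X.obj (op Wr.pt)) (pk x y (u.f 0)) l)

lemma susApp_jump {B : SP C} {m : SimplexCategory} (ψ : MpS B (Hm X x y) m)
    (θ : (Wr C)ᵒᵖ) (l : SimplexCategoryᵒᵖ) (s : l.unop ⟶ m)
    (u : VS (fun _ : Fin 1 => B) θ.unop l) (t : Fin θ.unop.len) (h : Jump u.f t 0) :
    susApp ψ θ l s u = (X.map (jm u.f t h).op).app l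
      (Hm.val (ψ.app (op (θ.unop.obj t)) l s (u.g t 0 h))) := by
  have hex : ∃ t, Jump u.f t 0 := ⟨t, h⟩
  rw [susApp, dif_pos hex]
  have e : hex.choose = t := hex.choose_spec.unique h
  have aux : ∀ (t' : Fin θ.unop.len) (_ : t' = t) (h' : Jump u.f t' 0),
      (X.map (jm u.f t' h').op).app l
        (Hm.val (ψ.app (op (θ.unop.obj t')) l s (u.g t' 0 h'))) =
      (X.map (jm u.f t h).op).app l
        (Hm.val (ψ.app (op (θ.unop.obj t)) l s (u.g t 0 h))) := by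
    rintro t' rfl h'
    rfl
  exact aux _ e _

lemma susApp_const {B : SP C} {m : SimplexCategory} (ψ : MpS B (Hm X x y) m)
    (θ : (Wr C)ᵒᵖ) (l : SimplexCategoryᵒᵖ) (s : l.unop ⟶ m)
    (u : VS (fun _ : Fin 1 => B) θ.unop l) (i : Fin 2) (h : ∀ p, u.f p = i) :
    susApp ψ θ l s u =
      (X.map (Wr.toPt θ.unop).op).app l (cst (X.obj (op Wr.pt)) (pk x y i) l) := by
  have hex : ¬ ∃ t, Jump u.f t 0 := fun ⟨t, ht⟩ => not_jump_const h t ht
  rw [susApp, dif_neg hex, h 0]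

/-- The two cases. -/
lemma cases_VS {B : SP C} {θ : Wr C} {l : SimplexCategoryᵒᵖ}
    (u : VS (fun _ : Fin 1 => B) θ l) : (∃ t, Jump u.f t 0) ∨ ∃ i : Fin 2, ∀ p, u.f p = i := by
  by_cases h : ∃ t, Jump u.f t 0
  · exact Or.inl h
  · exact Or.inr ⟨u.f 0, fun p => const_of_no_jump u.f h p⟩

/-- The map `V[1](B) × Δ[m] ⟶ X` attached to a map `B × Δ[m] ⟶ X(x, y)`. -/
noncomputable def sus {B : SP C} {m : SimplexCategory} (ψ : MpS B (Hm X x y) m) :
    MpS (V1 B) X m where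
  app θ l s u := susApp ψ θ l s u
  nat_left {θ θ'} φ l s u := by
    show susApp ψ θ' l s (VS.mapθ φ.unop u) = (X.map φ).app l (susApp ψ θ l s u)
    rcases cases_VS (VS.mapθ φ.unop u) with ⟨t', ht'⟩ | ⟨i, hi⟩
    · obtain ⟨t, h1, h2⟩ := Jump.split (f := Wr.Hom.f φ.unop) (g := u.f) ht'
      rw [susApp_jump ψ θ' l s _ t' ht', susApp_jump ψ θ l s u t h2]
      have e1 : (VS.mapθ φ.unop u).g t' 0 ht' =
          (B.map (Wr.Hom.g φ.unop t' t h1).op).app l (u.g t 0 h2) := VS.mapθ_g φ.unop u h1 h2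
      rw [e1]
      have e2 := ψ.nat_left (Wr.Hom.g φ.unop t' t h1).op l s (u.g t 0 h2)
      refine (congrArg (fun z => (X.map (jm (VS.mapθ φ.unop u).f t' ht').op).app l
        (Hm.val z)) e2).trans ?_
      refine (congrArg ((X.map (jm (VS.mapθ φ.unop u).f t' ht').op).app l)
        (Hm_val_map (Wr.Hom.g φ.unop t' t h1).op _)).trans ?_
      refine (sp_comp X _ _ _).symm.trans ?_
      refine Eq.trans ?_ (sp_comp X _ _ _)
      refine congrArg (fun r => (X.map (Quiver.Hom.op r)).app l _) ?_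
      show jm (VS.mapθ φ.unop u).f t' ht' ≫ segMap (Wr.Hom.g φ.unop t' t h1) =
        φ.unop ≫ jm u.f t h2
      refine Wr.hom_ext' rfl fun i (j : Fin 1) hj hj' => ?_
      obtain rfl : j = 0 := Subsingleton.elim _ _
      obtain rfl : i = t' := hj'.unique ht'
      have e3 := Wr.comp_g (jm (VS.mapθ φ.unop u).f i ht') (segMap (Wr.Hom.g φ.unop i t h1))
        (i := i) (j := (0 : Fin 1)) (k := (0 : Fin 1)) ht' (jump_id.mpr rfl)
      have e4 := Wr.comp_g φ.unop (jm u.f t h2) (i := i) (j := t) (k := (0 : Fin 1)) h1 h2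
      refine e3.trans (Eq.trans ?_ e4.symm)
      refine (congrArg₂ (· ≫ ·) (jm_g (VS.mapθ φ.unop u).f i ht' ht')
        (Wr.ofComp_g (X := fun _ : Fin 1 => θ'.unop.obj i) (Y := fun _ : Fin 1 => θ.unop.obj t)
          (fun _ => Wr.Hom.g φ.unop i t h1) 0 (jump_id.mpr rfl))).trans ?_
      refine Eq.trans ?_ (congrArg (Wr.Hom.g φ.unop i t h1 ≫ ·) (jm_g u.f t h2 h2)).symm
      exact (Category.id_comp _).trans (Category.comp_id _).symm
    · rw [susApp_const ψ θ' l s _ i hi]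
      rcases cases_VS u with ⟨t, ht⟩ | ⟨j, hj⟩
      · rw [susApp_jump ψ θ l s u t ht]
        refine Eq.trans ?_ (sp_comp X _ _ _)
        refine (congrArg ((X.map (Wr.toPt θ'.unop).op).app l) (Hm_ends
          (ψ.app (op (θ.unop.obj t)) l s (u.g t 0 ht)) i).symm).trans ?_
        refine (sp_comp X _ _ _).symm.trans ?_
        refine congrArg (fun r => (X.map (Quiver.Hom.op r)).app l _) ?_
        show Wr.toPt θ'.unop ≫ vtx (seg (θ.unop.obj t)) i = φ.unop ≫ jm u.f t ht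
        refine Wr.hom_ext' ?_ fun p (q : Fin 1) hq hq' => ?_
        · ext p
          exact congrArg Fin.val (hi p).symm
        · exfalso
          obtain rfl : q = 0 := Subsingleton.elim _ _
          exact not_jump_const hi p hq'
      · rw [susApp_const ψ θ l s u j hj]
        refine Eq.trans ?_ (sp_comp X _ _ _)
        have e : j = i := (hj _).symm.trans (hi 0)
        rw [e]
        exact congrArg (fun r => (X.map (Quiver.Hom.op r)).app l _) (Wr.toPt_unique _ _)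
  nat_right θ {k l} α s u := by
    show susApp ψ θ l (α.unop ≫ s) (VS.mapk α u) = (X.obj θ).map α (susApp ψ θ k s u)
    rcases cases_VS u with ⟨t, ht⟩ | ⟨j, hj⟩
    · rw [susApp_jump ψ θ k s u t ht]
      refine (susApp_jump ψ θ l (α.unop ≫ s) (VS.mapk α u) t ht).trans ?_
      refine Eq.trans ?_ (sp_nat X _ α _)
      refine congrArg ((X.map (jm u.f t ht).op).app l) ?_
      exact congrArg Hm.val (ψ.nat_right (op (θ.unop.obj t)) α s (u.g t 0 ht))
    · rw [susApp_const ψ θ k s u j hj]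
      refine (susApp_const ψ θ l (α.unop ≫ s) (VS.mapk α u) j hj).trans ?_
      refine Eq.trans ?_ (sp_nat X _ α _)
      rw [cst_map]

lemma sus_vsOf {B : SP C} {m : SimplexCategory} (ψ : MpS B (Hm X x y) m) (c : Cᵒᵖ)
    (l : SimplexCategoryᵒᵖ) (s : l.unop ⟶ m) (b : (B.obj c).obj l) :
    (sus ψ).app (op (seg c.unop)) l s (vsOf B b) = Hm.val (ψ.app c l s b) := by
  have h : Jump (OrderHom.id : Fin (1 + 1) →o Fin (1 + 1)) 0 0 := jump_id.mpr rfl
  refine (susApp_jump ψ (op (seg c.unop)) l s (vsOf B b) (0 : Fin 1) h).trans ?_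
  refine Eq.trans ?_ (sp_id X _)
  refine congrArg (fun r => (X.map (Quiver.Hom.op r)).app l _) ?_
  refine Wr.hom_ext' rfl fun i (j : Fin 1) hj hj' => ?_
  obtain rfl : i = j := Subsingleton.elim (α := Fin 1) _ _
  obtain rfl : i = 0 := Subsingleton.elim (α := Fin 1) _ _
  rfl

lemma sus_vsEnd {B : SP C} {m : SimplexCategory} (ψ : MpS B (Hm X x y) m)
    (θ : (Wr C)ᵒᵖ) (l : SimplexCategoryᵒᵖ) (s : l.unop ⟶ m) (i : Fin 2) :
    (sus ψ).app θ l s (vsEnd B i θ.unop l) =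
      (X.map (Wr.toPt θ.unop).op).app l (cst (X.obj (op Wr.pt)) (pk x y i) l) :=
  susApp_const ψ θ l s _ i fun _ => rfl

lemma sus_vsEnd_pt {B : SP C} {m : SimplexCategory} (ψ : MpS B (Hm X x y) m)
    (l : SimplexCategoryᵒᵖ) (s : l.unop ⟶ m) (i : Fin 2) :
    (sus ψ).app (op Wr.pt) l s (vsEnd B i Wr.pt l) =
      cst (X.obj (op Wr.pt)) (pk x y i) l := by
  refine (sus_vsEnd ψ (op Wr.pt) l s i).trans ?_
  refine Eq.trans ?_ (sp_id X _)
  exact congrArg (fun r => (X.map (Quiver.Hom.op r)).app l _) (Wr.toPt_unique _ _)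

/-- Two maps out of `V[1](B) × Δ[m]` which agree on the simplices `(id, b)` and on the two ends
are equal. -/
lemma V1_ext {B : SP C} {m : SimplexCategory} {φ φ' : MpS (V1 B) X m}
    (h : ∀ (c : Cᵒᵖ) (l : SimplexCategoryᵒᵖ) (s : l.unop ⟶ m) (b : (B.obj c).obj l),
      φ.app (op (seg c.unop)) l s (vsOf B b) = φ'.app (op (seg c.unop)) l s (vsOf B b))
    (h' : ∀ (i : Fin 2) (l : SimplexCategoryᵒᵖ) (s : l.unop ⟶ m),
      φ.app (op Wr.pt) l s (vsEnd B i Wr.pt l) = φ'.app (op Wr.pt) l s (vsEnd B i Wr.pt l)) :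
    φ = φ' := by
  refine MpS.ext ?_
  funext θ l s (u : VS (fun _ : Fin 1 => B) θ.unop l)
  rcases cases_VS u with ⟨t, ht⟩ | ⟨j, hj⟩
  · have e := eq_map_jm u t ht
    have e1 := φ.nat_left (jm u.f t ht).op l s (vsOf B (u.g t 0 ht))
    have e2 := φ'.nat_left (jm u.f t ht).op l s (vsOf B (u.g t 0 ht))
    have e3 := h (op (θ.unop.obj t)) l s (u.g t 0 ht)
    refine (congrArg (φ.app θ l s) e).symm.trans (Eq.trans ?_ (congrArg (φ'.app θ l s) e))
    refine e1.trans (Eq.trans ?_ e2.symm)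
    exact congrArg ((X.map (jm u.f t ht).op).app l) e3
  · have e := (mapθ_vsEnd (B := B) (Wr.toPt θ.unop) j l).trans (eq_vsEnd u j hj).symm
    have e1 := φ.nat_left (Wr.toPt θ.unop).op l s (vsEnd B j Wr.pt l)
    have e2 := φ'.nat_left (Wr.toPt θ.unop).op l s (vsEnd B j Wr.pt l)
    have e3 := h' j l s
    refine (congrArg (φ.app θ l s) e).symm.trans (Eq.trans ?_ (congrArg (φ'.app θ l s) e))
    refine e1.trans (Eq.trans ?_ e2.symm)
    exact congrArg ((X.map (Wr.toPt θ.unop).op).app l) e3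

/-- The map `B × Δ[m] ⟶ X(x, y)` attached to a map `V[1](B) × Δ[m] ⟶ X` with ends `x`, `y`. -/
def desus {B : SP C} {m : SimplexCategory} (φ : MpS (V1 B) X m)
    (h : ∀ (i : Fin 2) (l : SimplexCategoryᵒᵖ) (s : l.unop ⟶ m),
      φ.app (op Wr.pt) l s (vsEnd B i Wr.pt l) = cst (X.obj (op Wr.pt)) (pk x y i) l) :
    MpS B (Hm X x y) m where
  app c l s b := ⟨φ.app (op (seg c.unop)) l s (vsOf B b), by
    have key : ∀ i : Fin 2, (X.map (vtx (seg c.unop) i).op).app l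
        (φ.app (op (seg c.unop)) l s (vsOf B b)) = cst (X.obj (op Wr.pt)) (pk x y i) l := by
      intro i
      refine (φ.nat_left (vtx (seg c.unop) i).op l s (vsOf B b)).symm.trans ?_
      refine Eq.trans ?_ (h i l s)
      exact congrArg (φ.app (op Wr.pt) l s) (mapθ_vsOf_vtx b i)
    exact Prod.ext (key 0) (key 1)⟩
  nat_left {c c'} f l s b := by
    refine Subtype.ext ?_
    refine Eq.trans ?_ (φ.nat_left (segMap f.unop).op l s (vsOf B b))
    refine congrArg (φ.app (op (seg c'.unop)) l s) ?_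
    refine VS.ext' rfl fun (i : Fin 1) (j : Fin 1) hj hj' => ?_
    obtain rfl : i = j := Subsingleton.elim (α := Fin 1) _ _
    refine Eq.trans ?_ (VS.mapθ_g (segMap f.unop) (vsOf B b) (i := i) (j := i) (l := i)
      (jump_id.mpr rfl) (jump_id.mpr rfl)).symm
    refine congrArg (fun r => (B.map (Quiver.Hom.op r)).app l b) ?_
    exact (Wr.ofComp_g (X := fun _ : Fin 1 => c'.unop) (Y := fun _ : Fin 1 => c.unop)
      (fun _ => f.unop) i (jump_id.mpr rfl)).symm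
  nat_right c {k l} α s b := by
    refine Subtype.ext ?_
    exact φ.nat_right (op (seg c.unop)) α s (vsOf B b)

lemma desus_sus {B : SP C} {m : SimplexCategory} (ψ : MpS B (Hm X x y) m)
    (h : ∀ (i : Fin 2) (l : SimplexCategoryᵒᵖ) (s : l.unop ⟶ m),
      (sus ψ).app (op Wr.pt) l s (vsEnd B i Wr.pt l) = cst (X.obj (op Wr.pt)) (pk x y i) l) :
    desus (sus ψ) h = ψ := by
  refine MpS.ext ?_
  funext c l s b
  exact Subtype.ext (sus_vsOf ψ c l s b)

lemma sus_desus {B : SP C} {m : SimplexCategory} (φ : MpS (V1 B) X m)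
    (h : ∀ (i : Fin 2) (l : SimplexCategoryᵒᵖ) (s : l.unop ⟶ m),
      φ.app (op Wr.pt) l s (vsEnd B i Wr.pt l) = cst (X.obj (op Wr.pt)) (pk x y i) l) :
    sus (desus φ h) = φ :=
  V1_ext (fun c l s b => sus_vsOf (desus φ h) c l s b)
    fun i l s => (sus_vsEnd_pt (desus φ h) l s i).trans (h i l s).symm

lemma fb_ends {B : SP C} {k : SimplexCategoryᵒᵖ} (φ : (Fb (endsV B X) (x, y)).obj k) (i : Fin 2)
    (l : SimplexCategoryᵒᵖ) (s : l.unop ⟶ k.unop) :
    (φ.1 : MpS (V1 B) X k.unop).app (op Wr.pt) l s (vsEnd B i Wr.pt l) =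
      cst (X.obj (op Wr.pt)) (pk x y i) l := by
  have h := φ.2
  have h0 : (φ.1 : MpS (V1 B) X k.unop).app (op Wr.pt) k (𝟙 _) (vsEnd B 0 Wr.pt k) =
      cst (X.obj (op Wr.pt)) x k := congrArg Prod.fst h
  have h1 : (φ.1 : MpS (V1 B) X k.unop).app (op Wr.pt) k (𝟙 _) (vsEnd B 1 Wr.pt k) =
      cst (X.obj (op Wr.pt)) y k := congrArg Prod.snd h
  have hi : (φ.1 : MpS (V1 B) X k.unop).app (op Wr.pt) k (𝟙 _) (vsEnd B i Wr.pt k) =
      cst (X.obj (op Wr.pt)) (pk x y i) k := by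
    fin_cases i
    · exact h0
    · exact h1
  have e := (φ.1 : MpS (V1 B) X k.unop).nat_right (op Wr.pt) s.op (𝟙 _) (vsEnd B i Wr.pt k)
  rw [hi, cst_map] at e
  refine Eq.trans ?_ e
  have e1 : s.op.unop ≫ 𝟙 k.unop = s := Category.comp_id s
  rw [e1]
  refine congrArg ((φ.1 : MpS (V1 B) X k.unop).app (op Wr.pt) l s) ?_
  exact VS.ext' rfl fun (p : Fin 0) => p.elim0

lemma ends_sus {B : SP C} {k : SimplexCategoryᵒᵖ} (ψ : MpS B (Hm X x y) k.unop) :
    (endsV B X).app k (sus ψ) = cst (X.obj (op Wr.pt) ⊗ X.obj (op Wr.pt)) (x, y) k :=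
  Prod.ext (sus_vsEnd_pt ψ k (𝟙 _) 0) (sus_vsEnd_pt ψ k (𝟙 _) 1)

lemma sus_res {B : SP C} {m n : SimplexCategory} (α : n ⟶ m) (ψ : MpS B (Hm X x y) m) :
    sus (ψ.res α) = (sus ψ).res α :=
  V1_ext (fun c l s b => (sus_vsOf (ψ.res α) c l s b).trans (sus_vsOf ψ c l (s ≫ α) b).symm)
    fun i l s => (sus_vsEnd_pt (ψ.res α) l s i).trans (sus_vsEnd_pt ψ l (s ≫ α) i).symm

/-- The adjunction isomorphism. -/
noncomputable def hmAdj (B : SP C) (X : SP (Wr C)) (x y : Vt X) :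
    Mp B (Hm X x y) ≅ Fb (endsV B X) (x, y) where
  hom :=
    { app := fun k => ↾ fun (ψ : MpS B (Hm X x y) k.unop) => ⟨sus ψ, ends_sus ψ⟩
      naturality := fun k l α => by
        refine ConcreteCategory.hom_ext _ _ fun (ψ : MpS B (Hm X x y) k.unop) => ?_
        exact Subtype.ext (sus_res α.unop ψ) }
  inv :=
    { app := fun k => ↾ fun φ => desus φ.1 (fb_ends φ)
      naturality := fun k l α => by
        refine ConcreteCategory.hom_ext _ _ fun φ => ?_
        rfl }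
  hom_inv_id := by
    refine NatTrans.ext (funext fun k => ?_)
    refine ConcreteCategory.hom_ext _ _ fun (ψ : MpS B (Hm X x y) k.unop) => ?_
    exact desus_sus ψ fun i l s => sus_vsEnd_pt ψ l s i
  inv_hom_id := by
    refine NatTrans.ext (funext fun k => ?_)
    refine ConcreteCategory.hom_ext _ _ fun φ => ?_
    exact Subtype.ext (sus_desus φ.1 (fb_ends φ))

end

theorem exists_HmAdj (B : SP C) (X : SP (Wr C)) (x y : Vt X) :
    ∃ e : Mp B (Hm X x y) ≅ Fb (endsV B X) (x, y),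
      ∀ (k : SimplexCategoryᵒᵖ) (φ : (Fb (endsV B X) (x, y)).obj k) (c : Cᵒᵖ)
        (l : SimplexCategoryᵒᵖ) (s : l.unop ⟶ k.unop) (b : (B.obj c).obj l),
        Hm.val ((e.inv.app k φ : MpS B (Hm X x y) k.unop).app c l s b) =
          (φ.1 : MpS (V1 B) X k.unop).app (op (seg c.unop)) l s (vsOf B b) :=
  ⟨hmAdj B X x y, fun _ _ _ _ _ _ => rfl⟩

/-! ### Strict maps -/

section

open Pool.Agent.Helper91.FL2 (toHom toHom_ofHom)

variable {X : SP (Wr C)} {x y : Vt X}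

/-- The map `V[1](P) ⟶ X` attached to `P ⟶ X(x, y)`. -/
noncomputable def susH {P : SP C} (f : P ⟶ Hm X x y) : V1 P ⟶ X :=
  toHom (sus (MpS.ofHom (SimplexCategory.mk 0) f))

lemma susH_vsOf {P : SP C} (f : P ⟶ Hm X x y) (c : Cᵒᵖ) (l : SimplexCategoryᵒᵖ)
    (b : (P.obj c).obj l) :
    ((susH f).app (op (seg c.unop))).app l (vsOf P b) = Hm.val ((f.app c).app l b) :=
  sus_vsOf (MpS.ofHom (SimplexCategory.mk 0) f) c l
    (SimplexCategory.const l.unop (SimplexCategory.mk 0) 0) b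

lemma susH_vsEnd {P : SP C} (f : P ⟶ Hm X x y) (i : Fin 2) (l : SimplexCategoryᵒᵖ) :
    ((susH f).app (op Wr.pt)).app l (vsEnd P i Wr.pt l) = cst (X.obj (op Wr.pt)) (pk x y i) l :=
  sus_vsEnd_pt (MpS.ofHom (SimplexCategory.mk 0) f) l
    (SimplexCategory.const l.unop (SimplexCategory.mk 0) 0) i

lemma V1_extH {B : SP C} {f f' : V1 B ⟶ X}
    (h : ∀ (c : Cᵒᵖ) (l : SimplexCategoryᵒᵖ) (b : (B.obj c).obj l),
      (f.app (op (seg c.unop))).app l (vsOf B b) = (f'.app (op (seg c.unop))).app l (vsOf B b))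
    (h' : ∀ (i : Fin 2) (l : SimplexCategoryᵒᵖ),
      (f.app (op Wr.pt)).app l (vsEnd B i Wr.pt l) =
        (f'.app (op Wr.pt)).app l (vsEnd B i Wr.pt l)) :
    f = f' := by
  have e : MpS.ofHom (SimplexCategory.mk 0) f = MpS.ofHom (SimplexCategory.mk 0) f' :=
    V1_ext (fun c l s b => h c l b) fun i l s => h' i l
  have e2 := congrArg toHom e
  rwa [toHom_ofHom, toHom_ofHom] at e2

/-- The map `P ⟶ X(x, y)` attached to a map `V[1](P) ⟶ X` with ends `x`, `y`. -/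
noncomputable def desusH {P : SP C} (g : V1 P ⟶ X)
    (h : ∀ (i : Fin 2) (l : SimplexCategoryᵒᵖ), (g.app (op Wr.pt)).app l (vsEnd P i Wr.pt l) =
      cst (X.obj (op Wr.pt)) (pk x y i) l) : P ⟶ Hm X x y :=
  toHom (desus (MpS.ofHom (SimplexCategory.mk 0) g) fun i l _ => h i l)

lemma desusH_val {P : SP C} (g : V1 P ⟶ X)
    (h : ∀ (i : Fin 2) (l : SimplexCategoryᵒᵖ), (g.app (op Wr.pt)).app l (vsEnd P i Wr.pt l) =
      cst (X.obj (op Wr.pt)) (pk x y i) l) (c : Cᵒᵖ) (l : SimplexCategoryᵒᵖ)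
    (b : (P.obj c).obj l) :
    Hm.val (((desusH g h).app c).app l b) = (g.app (op (seg c.unop))).app l (vsOf P b) := rfl

lemma V1map_vsOf {P Q : SP C} (i : P ⟶ Q) {c : Cᵒᵖ} {l : SimplexCategoryᵒᵖ}
    (b : (P.obj c).obj l) :
    ((V1map i).app (op (seg c.unop))).app l (vsOf P b) = vsOf Q ((i.app c).app l b) := rfl

lemma V1map_vsEnd {P Q : SP C} (i : P ⟶ Q) (θ : (Wr C)ᵒᵖ) (l : SimplexCategoryᵒᵖ) (j : Fin 2) :
    ((V1map i).app θ).app l (vsEnd P j θ.unop l) = vsEnd Q j θ.unop l :=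
  eq_vsEnd _ j fun _ => rfl

end

end Helper53FL2
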