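import Pool.Agent.Helper53.FL2.Inj
import Pool.Agent.Helper54.FL2.Fib

/-!
# FL2, module V1 HMADJ, third part: vertices, locality of suspensions
-/

open CategoryTheory MonoidalCategory Opposite

set_option autoImplicit false

namespace Helper53FL2

open FL

variable {C : Type} [SmallCategory C]

/-! ### The presheaf with two points -/

/-- The presheaf `{0, 1}`. -/
noncomputable abbrev TP (C : Type) [SmallCategory C] : SP (Wr C) :=
  disc ((Functor.const (Wr C)ᵒᵖ).obj (Fin 2))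

/-- One of the two components of a pair. -/
def sel {S : SSet.{0}} {k : SimplexCategoryᵒᵖ} (z : (S ⊗ S).obj k) (i : Fin 2) : S.obj k :=
  if i = 0 then z.1 else z.2

lemma sel_map {S : SSet.{0}} {k l : SimplexCategoryᵒᵖ} (α : k ⟶ l) (z : (S ⊗ S).obj k)
    (i : Fin 2) : sel ((S ⊗ S).map α z) i = S.map α (sel z i) := by
  fin_cases i
  · rfl
  · rfl

/-- Maps out of the two points. -/
noncomputable def tpIso (X : SP (Wr C)) : Mp (TP C) X ≅ X.obj (op Wr.pt) ⊗ X.obj (op Wr.pt) where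
  hom :=
    { app := fun k => ↾ fun (φ : MpS (TP C) X k.unop) =>
        (φ.app (op Wr.pt) k (𝟙 _) (0 : Fin 2), φ.app (op Wr.pt) k (𝟙 _) (1 : Fin 2))
      naturality := fun k l α => by
        refine ConcreteCategory.hom_ext _ _ fun (φ : MpS (TP C) X k.unop) => ?_
        have key : ∀ i : Fin 2, φ.app (op Wr.pt) l (𝟙 _ ≫ α.unop) i =
            (X.obj (op Wr.pt)).map α (φ.app (op Wr.pt) k (𝟙 _) i) := by
          intro i
          refine Eq.trans ?_ (φ.nat_right (op Wr.pt) α (𝟙 _) i)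
          rw [Category.comp_id, Category.id_comp]
          rfl
        exact Prod.ext (key 0) (key 1) }
  inv :=
    { app := fun k => ↾ fun (z : (X.obj (op Wr.pt) ⊗ X.obj (op Wr.pt)).obj k) =>
        ({ app := fun θ l s (i : Fin 2) => (X.map (Wr.toPt θ.unop).op).app l
            ((X.obj (op Wr.pt)).map s.op (sel z i))
           nat_left := fun {θ θ'} φ l s (i : Fin 2) => by
            refine Eq.trans ?_ (sp_comp X _ _ _)
            exact congrArg (fun r => (X.map (Quiver.Hom.op r)).app l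
              ((X.obj (op Wr.pt)).map s.op (sel z i))) (Wr.toPt_unique _ _)
           nat_right := fun θ {l l'} g s (i : Fin 2) => by
            refine Eq.trans ?_ (sp_nat X _ g _)
            exact congrArg ((X.map (Wr.toPt θ.unop).op).app l') (sset_comp _ s.op g _) } :
          MpS (TP C) X k.unop)
      naturality := fun k l α => by
        refine ConcreteCategory.hom_ext _ _ fun z => ?_
        refine MpS.ext ?_
        funext θ m s (i : Fin 2)
        refine congrArg ((X.map (Wr.toPt θ.unop).op).app m) ?_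
        refine (congrArg ((X.obj (op Wr.pt)).map s.op) (sel_map α z i)).trans ?_
        exact (sset_comp _ α s.op _).symm }
  hom_inv_id := by
    refine NatTrans.ext (funext fun k => ?_)
    refine ConcreteCategory.hom_ext _ _ fun (φ : MpS (TP C) X k.unop) => ?_
    refine MpS.ext ?_
    funext θ m s (i : Fin 2)
    show (X.map (Wr.toPt θ.unop).op).app m ((X.obj (op Wr.pt)).map s.op
      (sel (S := X.obj (op Wr.pt)) (φ.app (op Wr.pt) k (𝟙 _) (0 : Fin 2),
        φ.app (op Wr.pt) k (𝟙 _) (1 : Fin 2)) i)) = φ.app θ m s i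
    have e : sel (S := X.obj (op Wr.pt)) (k := k) (φ.app (op Wr.pt) k (𝟙 _) (0 : Fin 2),
        φ.app (op Wr.pt) k (𝟙 _) (1 : Fin 2)) i = φ.app (op Wr.pt) k (𝟙 _) i := by
      fin_cases i
      · rfl
      · rfl
    rw [e]
    refine (congrArg ((X.map (Wr.toPt θ.unop).op).app m)
      (φ.nat_right (op Wr.pt) s.op (𝟙 _) i).symm).trans ?_
    refine (φ.nat_left (Wr.toPt θ.unop).op m (s.op.unop ≫ 𝟙 _) i).symm.trans ?_
    exact congrArg (fun r => φ.app θ m r i) (Category.comp_id s)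
  inv_hom_id := by
    refine NatTrans.ext (funext fun k => ?_)
    refine ConcreteCategory.hom_ext _ _ fun z => ?_
    have key : ∀ i : Fin 2, (X.map (Wr.toPt Wr.pt).op).app k
        ((X.obj (op Wr.pt)).map (𝟙 k.unop).op (sel z i)) = sel z i := by
      intro i
      refine (congrArg ((X.map (Wr.toPt Wr.pt).op).app k) (sset_id _ _)).trans ?_
      refine Eq.trans ?_ (sp_id X _)
      exact congrArg (fun r => (X.map (Quiver.Hom.op r)).app k _) (Wr.toPt_unique _ _)
    exact Prod.ext (key 0) (key 1)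

lemma kanFib_of_isIso {E B : SSet.{0}} (p : E ⟶ B) [IsIso p] : KanFib p :=
  fun _ _ => inferInstance

lemma kan_pt2 {X : SP (Wr C)} (hX : InjFib X) :
    SSet.KanComplex (X.obj (op Wr.pt) ⊗ X.obj (op Wr.pt)) :=
  Pool.Agent.Helper83.FL4.kan_of_kanFib (kanFib_of_isIso (tpIso X).inv)
    (Pool.Agent.Helper83.FL4.Mp_kan (TP C) hX)

/-! ### The ends of representables and suspensions -/

/-- The two vertices of `[1](c)`. -/
noncomputable def tpSeg (c : C) : TP C ⟶ rep (seg c) where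
  app θ :=
    { app := fun k => ↾ fun (i : Fin 2) => (Wr.toPt θ.unop ≫ vtx (seg c) i : θ.unop ⟶ seg c)
      naturality := fun _ _ _ => rfl }
  naturality θ θ' φ := by
    refine NatTrans.ext (funext fun k => ?_)
    refine ConcreteCategory.hom_ext _ _ fun (i : Fin 2) => ?_
    show Wr.toPt θ'.unop ≫ vtx (seg c) i = φ.unop ≫ Wr.toPt θ.unop ≫ vtx (seg c) i
    rw [← Category.assoc]
    exact congrArg (· ≫ vtx (seg c) i) (Wr.toPt_unique _ _)

lemma tpSeg_mono (c : C) (a : (Wr C)ᵒᵖ) : Mono ((tpSeg c).app a) := by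
  refine mono_of_inj _ fun k => ?_
  intro (i : Fin 2) (j : Fin 2) h
  have h1 : Wr.toPt a.unop ≫ vtx (seg c) i = Wr.toPt a.unop ≫ vtx (seg c) j := h
  have h2 := congrArg (fun r => Wr.Hom.f r 0) h1
  exact h2

/-- The two ends of `V[1](B)`. -/
noncomputable def tpV (B : SP C) : TP C ⟶ V1 B where
  app θ :=
    { app := fun k => ↾ fun (i : Fin 2) => vsEnd B i θ.unop k
      naturality := fun k l α => by
        refine ConcreteCategory.hom_ext _ _ fun (i : Fin 2) => ?_
        exact (eq_vsEnd (VS.mapk α (vsEnd B i θ.unop k)) i fun _ => rfl).symm }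
  naturality θ θ' φ := by
    refine NatTrans.ext (funext fun k => ?_)
    refine ConcreteCategory.hom_ext _ _ fun (i : Fin 2) => ?_
    exact (mapθ_vsEnd φ.unop i k).symm

lemma tpV_mono (B : SP C) (a : (Wr C)ᵒᵖ) : Mono ((tpV B).app a) := by
  refine mono_of_inj _ fun k => ?_
  intro (i : Fin 2) (j : Fin 2) h
  have h1 : vsEnd B i a.unop k = vsEnd B j a.unop k := h
  exact congrArg (fun r : VS (fun _ : Fin 1 => B) a.unop k => r.f 0) h1

lemma tpV_ends (B : SP C) (X : SP (Wr C)) : Mp.pre (tpV B) X ≫ (tpIso X).hom = endsV B X := rfl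

theorem endsV_kanFib (B : SP C) {X : SP (Wr C)} (hX : InjFib X) : KanFib (endsV B X) := by
  rw [← tpV_ends]
  exact Pool.Agent.Helper54.FL2.kanFib_comp
    (Pool.Agent.Helper83.FL4.Mp_pre_kanFib (tpV B) (tpV_mono B) hX)
    (kanFib_of_isIso (tpIso X).hom)

open Pool.Agent.Helper46.FLb (yoIn yoOut yoIn_yoOut)

lemma tpSeg_ends (c : C) (X : SP (Wr C)) :
    Mp.pre (tpSeg c) X ≫ (tpIso X).hom = yoOut X (op (seg c)) ≫ ends X c := by
  refine NatTrans.ext (funext fun k => ?_)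
  refine ConcreteCategory.hom_ext _ _ fun (φ : MpS (rep (seg c)) X k.unop) => ?_
  have key : ∀ i : Fin 2, φ.app (op Wr.pt) k (𝟙 _) (Wr.toPt Wr.pt ≫ vtx (seg c) i) =
      (X.map (vtx (seg c) i).op).app k (φ.app (op (seg c)) k (𝟙 _) (𝟙 (seg c))) := by
    intro i
    refine Eq.trans ?_ (φ.nat_left (vtx (seg c) i).op k (𝟙 _) (𝟙 (seg c)))
    refine congrArg (φ.app (op Wr.pt) k (𝟙 _)) ?_
    show Wr.toPt Wr.pt ≫ vtx (seg c) i = vtx (seg c) i ≫ 𝟙 (seg c)
    rw [Category.comp_id, Wr.toPt_unique (Wr.toPt Wr.pt) (𝟙 _), Category.id_comp]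
  exact Prod.ext (key 0) (key 1)

theorem ends_kanFib {X : SP (Wr C)} (hX : InjFib X) (c : C) : KanFib (ends X c) := by
  intro n i
  have h : KanFib (Mp.pre (tpSeg c) X ≫ (tpIso X).hom) :=
    Pool.Agent.Helper54.FL2.kanFib_comp
      (Pool.Agent.Helper83.FL4.Mp_pre_kanFib (tpSeg c) (tpSeg_mono c) hX)
      (kanFib_of_isIso (tpIso X).hom)
  rw [tpSeg_ends] at h
  have := h n i
  refine ⟨fun {u v} sq => ?_⟩
  have sq' : CommSq (u ≫ yoIn X (op (seg c))) (SSet.horn.{0} (n + 1) i).ι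
      (yoOut X (op (seg c)) ≫ ends X c) v := ⟨by
    rw [Category.assoc, ← Category.assoc (yoIn X _), yoIn_yoOut, Category.id_comp, sq.w]⟩
  refine ⟨⟨{ l := sq'.lift ≫ yoOut X (op (seg c)), fac_left := ?_, fac_right := ?_ }⟩⟩
  · rw [← Category.assoc, sq'.fac_left, Category.assoc, yoIn_yoOut, Category.comp_id]
  · rw [Category.assoc, sq'.fac_right]

theorem InjFib.vfib {X : SP (Wr C)} (hX : InjFib X) : VFib X :=
  ⟨Pool.Agent.Helper46.FLb.InjFib.objKan (fun X _ hZ => Pool.Agent.Helper83.FL4.Mp_kan X hZ) hX,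
    fun c => ends_kanFib hX c⟩

/-! ### Locality of suspensions -/

lemma pre_endsV {X : SP (Wr C)} {B B' : SP C} (f : B ⟶ B') :
    Mp.pre (V1map f) X ≫ endsV B X = endsV B' X ≫ 𝟙 _ := by
  refine NatTrans.ext (funext fun k => ?_)
  refine ConcreteCategory.hom_ext _ _ fun (φ : MpS (V1 B') X k.unop) => ?_
  have key : ∀ i : Fin 2, φ.app (op Wr.pt) k (𝟙 _)
      (((V1map f).app (op Wr.pt)).app k (vsEnd B i Wr.pt k)) =
      φ.app (op Wr.pt) k (𝟙 _) (vsEnd B' i Wr.pt k) := fun i =>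
    congrArg (φ.app (op Wr.pt) k (𝟙 _)) (V1map_vsEnd f (op Wr.pt) k i)
  exact Prod.ext (key 0) (key 1)

/-- The map of fibres. -/
noncomputable def fbm {X : SP (Wr C)} {B B' : SP C} (f : B ⟶ B') (x y : Vt X) :
    Fb (endsV B' X) (x, y) ⟶ Fb (endsV B X) (x, y) :=
  Fb.map (Mp.pre (V1map f) X) (𝟙 _) (pre_endsV f) (x, y)

lemma hmAdj_nat {X : SP (Wr C)} {B B' : SP C} (f : B ⟶ B') (x y : Vt X) :
    (hmAdj B' X x y).hom ≫ fbm f x y =
      Mp.pre f (Hm X x y) ≫ (hmAdj B X x y).hom := by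
  refine NatTrans.ext (funext fun k => ?_)
  refine ConcreteCategory.hom_ext _ _ fun (ψ : MpS B' (Hm X x y) k.unop) => ?_
  refine Subtype.ext ?_
  show (MpS.ofHom k.unop (V1map f)).comp (sus ψ) = sus ((MpS.ofHom k.unop f).comp ψ)
  refine V1_ext (fun c l s b => ?_) fun i l s => ?_
  · exact (sus_vsOf ψ c l s ((f.app c).app l b)).trans
      (sus_vsOf ((MpS.ofHom k.unop f).comp ψ) c l s b).symm
  · refine Eq.trans ?_ (sus_vsEnd_pt ((MpS.ofHom k.unop f).comp ψ) l s i).symm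
    refine Eq.trans ?_ (sus_vsEnd_pt ψ l s i)
    exact congrArg ((sus ψ).app (op Wr.pt) l s) (V1map_vsEnd f (op Wr.pt) l i)

lemma fb_hoEq_iff {X : SP (Wr C)} {B B' : SP C} (f : B ⟶ B') (x y : Vt X) :
    HoEq (Fb.map (Mp.pre (V1map f) X) (𝟙 _) (pre_endsV f) (x, y)) ↔ Loc (Hm X x y) f := by
  constructor
  · intro h
    refine Pool.Agent.Helper88.FL.hoEq_of_arrow_iso (hmAdj B' X x y).symm (hmAdj B X x y).symm
      ?_ h
    have e := hmAdj_nat (X := X) f x y
    have e2 := congrArg (fun r => (hmAdj B' X x y).inv ≫ r ≫ (hmAdj B X x y).inv) e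
    simp only [Category.assoc, Iso.hom_inv_id, Iso.inv_hom_id_assoc, Category.comp_id] at e2
    show fbm f x y ≫ (hmAdj B X x y).inv = (hmAdj B' X x y).inv ≫ Mp.pre f (Hm X x y)
    exact e2
  · intro h
    exact Pool.Agent.Helper88.FL.hoEq_of_arrow_iso (hmAdj B' X x y) (hmAdj B X x y)
      (hmAdj_nat f x y).symm h

theorem loc_V1map_iff {X : SP (Wr C)} (hX : InjFib X) {B B' : SP C} (f : B ⟶ B')
    (O : Set (Vt X)) (hO : ∀ z : Vt X, ∃ x ∈ O, Cn (X.obj (op Wr.pt)) x z) :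
    Loc X (V1map f) ↔ ∀ x ∈ O, ∀ y ∈ O, Loc (Hm X x y) f := by
  have hK := kan_pt2 hX
  constructor
  · intro h x _ y _
    rw [← fb_hoEq_iff]
    exact Pool.Agent.Helper54.FL2.Fb_map_hoEq (endsV_kanFib B' hX) (endsV_kanFib B hX) hK hK
      (Mp.pre (V1map f) X) (𝟙 _) (pre_endsV f) h
      (Pool.Agent.Helper88.FL.hoEq_of_isIso _) (x, y)
  · intro h
    refine Pool.Agent.Helper54.FL2.hoEq_of_fibres (endsV_kanFib B' hX) (endsV_kanFib B hX) hK hK
      (Mp.pre (V1map f) X) (𝟙 _) (pre_endsV f)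
      (Pool.Agent.Helper88.FL.hoEq_of_isIso _) { z | z.1 ∈ O ∧ z.2 ∈ O } ?_ ?_
    · rintro ⟨a, b⟩
      obtain ⟨x, hx, e, he0, he1⟩ := hO a
      obtain ⟨y, hy, e', he0', he1'⟩ := hO b
      exact ⟨(x, y), ⟨hx, hy⟩, (e, e'), Prod.ext he0 he0', Prod.ext he1 he1'⟩
    · rintro ⟨x, y⟩ ⟨hx, hy⟩
      exact (fb_hoEq_iff f x y).mpr (h x hx y hy)

end Helper53FL2
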