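import Pool.Agent.Helper53.FL2.Adj

/-!
# FL2, module V1 HMADJ, second part: mapping presheaves and injective fibrations
-/

open CategoryTheory MonoidalCategory Opposite

set_option autoImplicit false

namespace Helper53FL2

open FL

variable {C : Type} [SmallCategory C]

lemma mono_inj {K L : SSet.{0}} (i : K ⟶ L) [Mono i] (k : SimplexCategoryᵒᵖ) :
    Function.Injective (i.app k) := fun _ _ h => Pool.Agent.Helper83.FL4.j_inj i h

lemma mono_of_inj {K L : SSet.{0}} (i : K ⟶ L) (h : ∀ k, Function.Injective (i.app k)) :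
    Mono i := by
  have h : ∀ k, Mono (i.app k) := fun k => (mono_iff_injective _).2 (h k)
  exact NatTrans.mono_of_mono_app _

theorem V1map_mono {P Q : SP C} (i : P ⟶ Q) (hi : ∀ a, Mono (i.app a)) (θ : (Wr C)ᵒᵖ) :
    Mono ((V1map i).app θ) := by
  refine mono_of_inj _ fun k => ?_
  intro (u : VS (fun _ : Fin 1 => P) θ.unop k) (v : VS (fun _ : Fin 1 => P) θ.unop k) h
  have hh : u.push (fun _ => i) = v.push (fun _ => i) := h
  have hf : (u.push fun _ => i).f = (v.push fun _ => i).f := congrArg VS.f hh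
  refine VS.ext' hf fun p j hj hj' => ?_
  apply mono_inj (i.app (op (θ.unop.obj p))) k
  have aux : ∀ (a b : VS (fun _ : Fin 1 => Q) θ.unop k) (_ : a = b) (h1 : Jump a.f p j)
      (h2 : Jump b.f p j), a.g p j h1 = b.g p j h2 := by
    rintro a _ rfl h1 h2
    rfl
  exact aux _ _ hh hj hj'

section WE

variable {P Q : SP C} (i : P ⟶ Q) (θ : (Wr C)ᵒᵖ)

/-- The inclusion of a component of `V[1](P)(θ)`. -/
noncomputable def comp1 (P : SP C) (θ : (Wr C)ᵒᵖ) (f : Fin (θ.unop.len + 1) →o Fin (1 + 1))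
    (t : Fin θ.unop.len) (h : Jump f t 0) : P.obj (op (θ.unop.obj t)) ⟶ (V1 P).obj θ where
  app k := ↾ fun p => (VS.mapθ (jm f t h) (vsOf P p) : VS (fun _ : Fin 1 => P) θ.unop k)
  naturality k l α := by
    refine ConcreteCategory.hom_ext _ _ fun p => ?_
    exact sp_nat (V1 P) (jm f t h).op α (vsOf P p)

lemma comp1_nat (f : Fin (θ.unop.len + 1) →o Fin (1 + 1))
    (t : Fin θ.unop.len) (h : Jump f t 0) :
    i.app (op (θ.unop.obj t)) ≫ comp1 Q θ f t h = comp1 P θ f t h ≫ (V1map i).app θ := by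
  refine NatTrans.ext (funext fun k => ?_)
  refine ConcreteCategory.hom_ext _ _ fun p => ?_
  exact (hom_nat (V1map i) (jm f t h).op (vsOf P p)).symm

theorem V1map_we (hi : TrivCof i) : WE ((V1map i).app θ) := by
  classical
  have := V1map_mono i hi.1 θ
  rw [Helper85FL.we_iff_lift]
  intro E B p hE hB hp
  refine ⟨fun {u v} sq => ?_⟩
  -- the lifts on the components
  have hl : ∀ (f : Fin (θ.unop.len + 1) →o Fin (1 + 1)) (t : Fin θ.unop.len) (h : Jump f t 0),
      ∃ l : Q.obj (op (θ.unop.obj t)) ⟶ E, i.app (op (θ.unop.obj t)) ≫ l = comp1 P θ f t h ≫ u ∧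
        l ≫ p = comp1 Q θ f t h ≫ v := by
    intro f t h
    have := hi.1 (op (θ.unop.obj t))
    have hlift : HasLiftingProperty (i.app (op (θ.unop.obj t))) p :=
      (Helper85FL.we_iff_lift _).mp (hi.2 _) p hE hB hp
    have sq' : CommSq (comp1 P θ f t h ≫ u) (i.app (op (θ.unop.obj t))) p
        (comp1 Q θ f t h ≫ v) := ⟨by
      rw [Category.assoc, sq.w, ← Category.assoc, ← comp1_nat, Category.assoc]⟩
    exact ⟨sq'.lift, sq'.fac_left, sq'.fac_right⟩
  choose l hl1 hl2 using hl
  let L : ∀ (k : SimplexCategoryᵒᵖ), VS (fun _ : Fin 1 => Q) θ.unop k → E.obj k := fun k w =>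
    if h : ∃ t, Jump w.f t 0 then
      (l w.f h.choose h.choose_spec).app k (w.g h.choose 0 h.choose_spec)
    else u.app k (vsEnd P (w.f 0) θ.unop k)
  have Lj : ∀ (k : SimplexCategoryᵒᵖ) (w : VS (fun _ : Fin 1 => Q) θ.unop k)
      (t : Fin θ.unop.len) (h : Jump w.f t 0), L k w = (l w.f t h).app k (w.g t 0 h) := by
    intro k w t h
    have hex : ∃ t, Jump w.f t 0 := ⟨t, h⟩
    show (if h : ∃ t, Jump w.f t 0 then
      (l w.f h.choose h.choose_spec).app k (w.g h.choose 0 h.choose_spec)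
      else u.app k (vsEnd P (w.f 0) θ.unop k)) = _
    rw [dif_pos hex]
    have e : hex.choose = t := hex.choose_spec.unique h
    have aux : ∀ (t' : Fin θ.unop.len) (_ : t' = t) (h' : Jump w.f t' 0),
        (l w.f t' h').app k (w.g t' 0 h') = (l w.f t h).app k (w.g t 0 h) := by
      rintro t' rfl h'
      rfl
    exact aux _ e _
  have Lc : ∀ (k : SimplexCategoryᵒᵖ) (w : VS (fun _ : Fin 1 => Q) θ.unop k)
      (j : Fin 2) (h : ∀ q, w.f q = j), L k w = u.app k (vsEnd P j θ.unop k) := by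
    intro k w j h
    have hex : ¬ ∃ t, Jump w.f t 0 := fun ⟨t, ht⟩ => not_jump_const h t ht
    show (if h : ∃ t, Jump w.f t 0 then
      (l w.f h.choose h.choose_spec).app k (w.g h.choose 0 h.choose_spec)
      else u.app k (vsEnd P (w.f 0) θ.unop k)) = _
    rw [dif_neg hex, h 0]
  have Ln : ∀ {k k' : SimplexCategoryᵒᵖ} (α : k ⟶ k'),
      ((V1 Q).obj θ).map α ≫ (↾ (L k')) = (↾ (L k)) ≫ E.map α := by
    intro k k' α
    refine ConcreteCategory.hom_ext _ _ fun (w : VS (fun _ : Fin 1 => Q) θ.unop k) => ?_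
    show L k' (VS.mapk α w) = E.map α (L k w)
    rcases cases_VS w with ⟨t, ht⟩ | ⟨j, hj⟩
    · rw [Lj k w t ht]
      refine (Lj k' (VS.mapk α w) t ht).trans ?_
      exact sset_nat (l w.f t ht) α (w.g t 0 ht)
    · rw [Lc k w j hj]
      refine (Lc k' (VS.mapk α w) j hj).trans ?_
      refine Eq.trans ?_ (sset_nat u α (vsEnd P j θ.unop k))
      refine congrArg (u.app k') ?_
      exact (eq_vsEnd (VS.mapk α (vsEnd P j θ.unop k)) j fun _ => rfl).symm
  let L' : (V1 Q).obj θ ⟶ E := { app := fun k => ↾ (L k), naturality := fun _ _ α => Ln α }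
  refine ⟨⟨{ l := L', fac_left := ?_, fac_right := ?_ }⟩⟩
  · refine NatTrans.ext (funext fun k => ?_)
    refine ConcreteCategory.hom_ext _ _ fun (w : VS (fun _ : Fin 1 => P) θ.unop k) => ?_
    show L k (w.push fun _ => i) = u.app k w
    rcases cases_VS w with ⟨t, ht⟩ | ⟨j, hj⟩
    · refine (Lj k (w.push fun _ => i) t ht).trans ?_
      have e := ConcreteCategory.congr_hom (NatTrans.congr_app (hl1 w.f t ht) k) (w.g t 0 ht)
      refine Eq.trans e ?_
      exact congrArg (u.app k) (eq_map_jm w t ht)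
    · refine (Lc k (w.push fun _ => i) j hj).trans ?_
      exact congrArg (u.app k) (eq_vsEnd w j hj).symm
  · refine NatTrans.ext (funext fun k => ?_)
    refine ConcreteCategory.hom_ext _ _ fun (w : VS (fun _ : Fin 1 => Q) θ.unop k) => ?_
    show p.app k (L k w) = v.app k w
    rcases cases_VS w with ⟨t, ht⟩ | ⟨j, hj⟩
    · refine (congrArg (p.app k) (Lj k w t ht)).trans ?_
      have e := ConcreteCategory.congr_hom (NatTrans.congr_app (hl2 w.f t ht) k) (w.g t 0 ht)
      refine Eq.trans e ?_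
      exact congrArg (v.app k) (eq_map_jm w t ht)
    · refine (congrArg (p.app k) (Lc k w j hj)).trans ?_
      have e := ConcreteCategory.congr_hom (NatTrans.congr_app sq.w k) (vsEnd P j θ.unop k)
      refine Eq.trans e ?_
      refine congrArg (v.app k) ?_
      exact (V1map_vsEnd i θ k j).trans (eq_vsEnd w j hj).symm

end WE

theorem V1map_trivCof {P Q : SP C} (i : P ⟶ Q) (hi : TrivCof i) : TrivCof (V1map i) :=
  ⟨V1map_mono i hi.1, fun θ => V1map_we i θ hi⟩

theorem Hm_injFib {X : SP (Wr C)} (hX : InjFib X) (x y : Vt X) : InjFib (Hm X x y) := by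
  intro P Q i hi f
  obtain ⟨g, hg⟩ := hX (V1map i) (V1map_trivCof i hi) (susH f)
  have h1 : ∀ (j : Fin 2) (l : SimplexCategoryᵒᵖ), (g.app (op Wr.pt)).app l (vsEnd Q j Wr.pt l) =
      cst (X.obj (op Wr.pt)) (pk x y j) l := by
    intro j l
    refine Eq.trans ?_ (susH_vsEnd f j l)
    rw [← hg]
    exact congrArg ((g.app (op Wr.pt)).app l) (V1map_vsEnd i (op Wr.pt) l j).symm
  refine ⟨desusH g h1, ?_⟩
  refine NatTrans.ext (funext fun c => NatTrans.ext (funext fun l => ?_))
  refine ConcreteCategory.hom_ext _ _ fun b => ?_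
  refine Subtype.ext ?_
  refine Eq.trans ?_ (susH_vsOf f c l b)
  rw [← hg]
  rfl

/-- The lifting property for mapping presheaves. -/
theorem HmMap_lift {X Y : SP (Wr C)} {f : X ⟶ Y} {x y : Vt X} {P Q : SP C} (i : P ⟶ Q)
    (h : HasLiftingProperty (V1map i) f) : HasLiftingProperty i (HmMap f x y) := by
  refine ⟨fun {u v} sq => ?_⟩
  have hpk : ∀ j : Fin 2, pk (vtMap f x) (vtMap f y) j = vtMap f (pk x y j) := by
    intro j
    fin_cases j
    · rfl
    · rfl
  have sq' : CommSq (susH u) (V1map i) f (susH v) := ⟨by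
    refine V1_extH (fun c l b => ?_) fun j l => ?_
    · show (f.app _).app l (((susH u).app _).app l (vsOf P b)) =
        ((susH v).app _).app l (vsOf Q ((i.app c).app l b))
      rw [susH_vsOf, susH_vsOf]
      exact congrArg Hm.val (ConcreteCategory.congr_hom (NatTrans.congr_app
        (NatTrans.congr_app sq.w c) l) b)
    · show (f.app _).app l (((susH u).app _).app l (vsEnd P j Wr.pt l)) =
        ((susH v).app (op Wr.pt)).app l (((V1map i).app (op Wr.pt)).app l (vsEnd P j Wr.pt l))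
      refine (congrArg ((f.app (op Wr.pt)).app l) (susH_vsEnd u j l)).trans ?_
      refine Eq.trans ?_ (congrArg (((susH v).app (op Wr.pt)).app l)
        (V1map_vsEnd i (op Wr.pt) l j)).symm
      refine Eq.trans ?_ (susH_vsEnd v j l).symm
      rw [hpk]
      exact app_cst (f.app (op Wr.pt)) (pk x y j) l⟩
  have h1 : ∀ (j : Fin 2) (l : SimplexCategoryᵒᵖ),
      (sq'.lift.app (op Wr.pt)).app l (vsEnd Q j Wr.pt l) =
      cst (X.obj (op Wr.pt)) (pk x y j) l := by
    intro j l
    refine Eq.trans ?_ (susH_vsEnd u j l)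
    have e := ConcreteCategory.congr_hom (NatTrans.congr_app
      (NatTrans.congr_app sq'.fac_left (op Wr.pt)) l) (vsEnd P j Wr.pt l)
    refine Eq.trans ?_ e
    exact congrArg ((sq'.lift.app (op Wr.pt)).app l) (V1map_vsEnd i (op Wr.pt) l j).symm
  refine ⟨⟨{ l := desusH sq'.lift h1, fac_left := ?_, fac_right := ?_ }⟩⟩
  · refine NatTrans.ext (funext fun c => NatTrans.ext (funext fun l => ?_))
    refine ConcreteCategory.hom_ext _ _ fun b => ?_
    refine Subtype.ext ?_
    refine Eq.trans ?_ (susH_vsOf u c l b)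
    exact ConcreteCategory.congr_hom (NatTrans.congr_app
      (NatTrans.congr_app sq'.fac_left (op (seg c.unop))) l) (vsOf P b)
  · refine NatTrans.ext (funext fun c => NatTrans.ext (funext fun l => ?_))
    refine ConcreteCategory.hom_ext _ _ fun b => ?_
    refine Subtype.ext ?_
    refine Eq.trans ?_ (susH_vsOf v c l b)
    exact ConcreteCategory.congr_hom (NatTrans.congr_app
      (NatTrans.congr_app sq'.fac_right (op (seg c.unop))) l) (vsOf Q b)

theorem HmMap_injFibration {X Y : SP (Wr C)} {f : X ⟶ Y} (hf : InjFibration f) (x y : Vt X) :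
    InjFibration (HmMap f x y) := fun _ _ i hi => HmMap_lift i (hf _ (V1map_trivCof i hi))

theorem HmMap_injTrivFibration {X Y : SP (Wr C)} {f : X ⟶ Y} (hf : InjTrivFibration f)
    (x y : Vt X) : InjTrivFibration (HmMap f x y) :=
  fun _ _ i hi => HmMap_lift i (hf _ (V1map_mono i hi))

end Helper53FL2
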